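import Mathlib
import Pool.Agent.H354R2.Pratt

/-!
The least prime with decimal digit sum `86` is `6999999989`.  Hence the assertions (b) and (c)
(that the least prime with digit sum `k` ends in `99` for all `k > 38`, and in `999` for all
`k > 59`) are both false.
-/

namespace Pool.Agent.Results.MP_70678e_nt.TwoOfThree

/-- `p` is the least prime whose decimal digit sum is `k`, i.e. `ρ(k)` is defined and equals `p` -/
def IsRho (k p : ℕ) : Prop :=
  IsLeast {q : ℕ | q.Prime ∧ (Nat.digits 10 q).sum = k} p

theorem digits_sum_step (n : ℕ) : (Nat.digits 10 n).sum = n % 10 + (Nat.digits 10 (n / 10)).sum := by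
  rcases Nat.eq_zero_or_pos n with h | h
  · subst h; simp
  · rw [Nat.digits_def' (by norm_num) h]
    simp

theorem digits_sum_ten (n : ℕ) (h : n < 10 ^ 10) : (Nat.digits 10 n).sum =
    n % 10 + (n / 10 % 10 + (n / 10 / 10 % 10 + (n / 10 / 10 / 10 % 10 + (n / 10 / 10 / 10 / 10 % 10
    + (n / 10 / 10 / 10 / 10 / 10 % 10 + (n / 10 / 10 / 10 / 10 / 10 / 10 % 10
    + (n / 10 / 10 / 10 / 10 / 10 / 10 / 10 % 10 + (n / 10 / 10 / 10 / 10 / 10 / 10 / 10 / 10 % 10
    + n / 10 / 10 / 10 / 10 / 10 / 10 / 10 / 10 / 10 % 10)))))))) := by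
  rw [digits_sum_step, digits_sum_step (n / 10), digits_sum_step (n / 10 / 10),
    digits_sum_step (n / 10 / 10 / 10), digits_sum_step (n / 10 / 10 / 10 / 10),
    digits_sum_step (n / 10 / 10 / 10 / 10 / 10), digits_sum_step (n / 10 / 10 / 10 / 10 / 10 / 10),
    digits_sum_step (n / 10 / 10 / 10 / 10 / 10 / 10 / 10),
    digits_sum_step (n / 10 / 10 / 10 / 10 / 10 / 10 / 10 / 10),
    digits_sum_step (n / 10 / 10 / 10 / 10 / 10 / 10 / 10 / 10 / 10)]
  have : n / 10 / 10 / 10 / 10 / 10 / 10 / 10 / 10 / 10 / 10 = 0 := by omega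
  rw [this]
  simp

/-- the integers below `6999999989` with digit sum `86` -/
theorem small (q : ℕ) (hq : q < 6999999989) (hs : (Nat.digits 10 q).sum = 86) :
    q = 5999999999 ∨ q = 6899999999 ∨ q = 6989999999 ∨ q = 6998999999 ∨ q = 6999899999 ∨
      q = 6999989999 ∨ q = 6999998999 ∨ q = 6999999899 := by
  rw [digits_sum_ten q (by omega)] at hs
  generalize h0 : q % 10 = d0 at hs
  generalize h1 : q / 10 % 10 = d1 at hs
  generalize h2 : q / 10 / 10 % 10 = d2 at hs
  generalize h3 : q / 10 / 10 / 10 % 10 = d3 at hs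
  generalize h4 : q / 10 / 10 / 10 / 10 % 10 = d4 at hs
  generalize h5 : q / 10 / 10 / 10 / 10 / 10 % 10 = d5 at hs
  generalize h6 : q / 10 / 10 / 10 / 10 / 10 / 10 % 10 = d6 at hs
  generalize h7 : q / 10 / 10 / 10 / 10 / 10 / 10 / 10 % 10 = d7 at hs
  generalize h8 : q / 10 / 10 / 10 / 10 / 10 / 10 / 10 / 10 % 10 = d8 at hs
  generalize h9 : q / 10 / 10 / 10 / 10 / 10 / 10 / 10 / 10 / 10 % 10 = d9 at hs
  have hd : q = d0 + 10 * d1 + 100 * d2 + 1000 * d3 + 10000 * d4 + 100000 * d5 + 1000000 * d6
      + 10000000 * d7 + 100000000 * d8 + 1000000000 * d9 := by omega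
  have b0 : d0 ≤ 9 := by omega
  have b1 : d1 ≤ 9 := by omega
  have b2 : d2 ≤ 9 := by omega
  have b3 : d3 ≤ 9 := by omega
  have b4 : d4 ≤ 9 := by omega
  have b5 : d5 ≤ 9 := by omega
  have b6 : d6 ≤ 9 := by omega
  have b7 : d7 ≤ 9 := by omega
  have b8 : d8 ≤ 9 := by omega
  clear h0 h1 h2 h3 h4 h5 h6 h7 h8 h9
  have b9 : d9 ≤ 6 := by omega
  have b9' : 5 ≤ d9 := by omega
  interval_cases d9
  · left; omega
  · right
    have : d8 = 8 ∨ d8 = 9 := by omega
    rcases this with h | h
    · left; omega
    · right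
      have : d7 = 8 ∨ d7 = 9 := by omega
      rcases this with h | h
      · left; omega
      · right
        have : d6 = 8 ∨ d6 = 9 := by omega
        rcases this with h | h
        · left; omega
        · right
          have : d5 = 8 ∨ d5 = 9 := by omega
          rcases this with h | h
          · left; omega
          · right
            have : d4 = 8 ∨ d4 = 9 := by omega
            rcases this with h | h
            · left; omega
            · right
              have : d3 = 8 ∨ d3 = 9 := by omega
              rcases this with h | h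
              · left; omega
              · right; omega

theorem prime_6999999989 : Nat.Prime 6999999989 := by
  apply Pool.Agent.H354R2.pratt 6999999989 2 34 [2, 2, 19, 373, 246931]
  · intro q hq
    simp only [List.mem_cons, List.not_mem_nil, or_false] at hq
    rcases hq with rfl | rfl | rfl | rfl | rfl <;> norm_num
  · decide +kernel

theorem rho86 : IsRho 86 6999999989 := by
  refine ⟨⟨prime_6999999989, by norm_num⟩, ?_⟩
  rintro q ⟨hp, hs⟩
  by_contra hlt
  push Not at hlt
  rcases small q hlt hs with h | h | h | h | h | h | h | h <;> subst h <;> revert hp <;> norm_num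

/-- `ρ(86) = 6999999989`; so assertion (b) (every defined `ρ(k)` with `k > 38` is `99` modulo
`100`) and assertion (c) (every defined `ρ(k)` with `k > 59` is `999` modulo `1000`) both fail. -/
theorem result :
    IsRho 86 6999999989 ∧
    (¬ ∀ k p : ℕ, 38 < k → IsRho k p → p % 100 = 99) ∧
    (¬ ∀ k p : ℕ, 59 < k → IsRho k p → p % 1000 = 999) := by
  refine ⟨rho86, fun h => ?_, fun h => ?_⟩
  · have := h 86 6999999989 (by norm_num) rho86
    norm_num at this
  · have := h 86 6999999989 (by norm_num) rho86
    norm_num at this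

end Pool.Agent.Results.MP_70678e_nt.TwoOfThree
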